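import Pool.Agent.Work.MP_ebd05c_an.Inv

set_option autoImplicit false

open scoped BigOperators ENNReal InnerProductSpace
open Finset Filter Polynomial

namespace Pool.Agent.Work.MP_ebd05c_an

/-- analytic Rudin-Shapiro pairs -/
noncomputable def RS (c : ℝ) (d : ℕ → ℕ) : ℕ → ℂ[X] × ℂ[X]
  | 0 => (0, 1)
  | j + 1 => ((RS c d j).1 + C (c : ℂ) * (X ^ d j * (RS c d j).2),
      X ^ d j * (RS c d j).2 - C (c : ℂ) * (RS c d j).1)

lemma para {E : Type*} [NormedAddCommGroup E] [InnerProductSpace ℂ E] (u w : E) (c : ℝ) :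
    ‖u + (c : ℂ) • w‖ ^ 2 + ‖w - (c : ℂ) • u‖ ^ 2 = (1 + c ^ 2) * (‖u‖ ^ 2 + ‖w‖ ^ 2) := by
  rw [@norm_add_sq ℂ, @norm_sub_sq ℂ, inner_smul_right, inner_smul_right, norm_smul, norm_smul,
    Complex.norm_real]
  have h1 : RCLike.re ((c : ℂ) * ⟪w, u⟫_ℂ) = c * RCLike.re ⟪w, u⟫_ℂ := by simp
  have h2 : RCLike.re ((c : ℂ) * ⟪u, w⟫_ℂ) = c * RCLike.re ⟪u, w⟫_ℂ := by simp
  rw [h1, h2, ← inner_conj_symm u w, RCLike.conj_re]
  have h3 : ‖c‖ ^ 2 = c ^ 2 := by rw [Real.norm_eq_abs, sq_abs]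
  rw [mul_pow, mul_pow, h3]
  ring

lemma RS_bound {E : Type*} [NormedAddCommGroup E] [InnerProductSpace ℂ E]
    (A : E →L[ℂ] E) (hA : ‖A‖ ≤ 1) (c : ℝ) (d : ℕ → ℕ) (x : E) (j : ℕ) :
    ‖(aeval A (RS c d j).1) x‖ ^ 2 + ‖(aeval A (RS c d j).2) x‖ ^ 2 ≤
      (1 + c ^ 2) ^ j * ‖x‖ ^ 2 := by
  induction j with
  | zero => simp [RS]
  | succ j ih =>
    set u := (aeval A (RS c d j).1) x with hu
    set r := (aeval A (RS c d j).2) x with hr
    have h1 : (aeval A (RS c d (j + 1)).1) x = u + (c : ℂ) • ((A ^ d j) r) := by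
      simp only [RS, map_add, map_mul, aeval_C, map_pow, aeval_X]
      rw [add_apply, Algebra.algebraMap_eq_smul_one, smul_mul_assoc, one_mul]
      rfl
    have h2 : (aeval A (RS c d (j + 1)).2) x = (A ^ d j) r - (c : ℂ) • u := by
      simp only [RS, map_sub, map_mul, aeval_C, map_pow, aeval_X]
      rw [sub_apply, Algebra.algebraMap_eq_smul_one, smul_mul_assoc, one_mul]
      rfl
    rw [h1, h2, para]
    have h3 : ‖(A ^ d j) r‖ ≤ ‖r‖ := by
      calc ‖(A ^ d j) r‖ ≤ ‖A ^ d j‖ * ‖r‖ := (A ^ d j).le_opNorm r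
        _ ≤ 1 * ‖r‖ := by
            gcongr
            have h4 : ‖A ^ d j‖ ≤ ‖A‖ ^ d j := by
              rcases Nat.eq_zero_or_pos (d j) with h0 | h0
              · rw [h0, pow_zero, pow_zero]
                exact ContinuousLinearMap.norm_id_le
              · exact norm_pow_le' A h0
            exact h4.trans (pow_le_one₀ (norm_nonneg _) hA)
        _ = ‖r‖ := one_mul _
    have h5 : ‖(A ^ d j) r‖ ^ 2 ≤ ‖r‖ ^ 2 := by gcongr
    calc (1 + c ^ 2) * (‖u‖ ^ 2 + ‖(A ^ d j) r‖ ^ 2) ≤ (1 + c ^ 2) * (‖u‖ ^ 2 + ‖r‖ ^ 2) := by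
          gcongr
      _ ≤ (1 + c ^ 2) * ((1 + c ^ 2) ^ j * ‖x‖ ^ 2) := by gcongr
      _ = _ := by ring

lemma RS_eval_bound (z : ℂ) (hz : ‖z‖ ≤ 1) (c : ℝ) (d : ℕ → ℕ) (j : ℕ) :
    ‖(RS c d j).1.eval z‖ ^ 2 + ‖(RS c d j).2.eval z‖ ^ 2 ≤ (1 + c ^ 2) ^ j := by
  induction j with
  | zero => simp [RS]
  | succ j ih =>
    set u := (RS c d j).1.eval z with hu
    set r := (RS c d j).2.eval z with hr
    have h1 : (RS c d (j + 1)).1.eval z = u + (c : ℂ) • (z ^ d j * r) := by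
      simp [RS, hu, hr]
    have h2 : (RS c d (j + 1)).2.eval z = (z ^ d j * r) - (c : ℂ) • u := by
      simp [RS, hu, hr]
    rw [h1, h2, para]
    have h3 : ‖z ^ d j * r‖ ≤ ‖r‖ := by
      rw [norm_mul, norm_pow]
      exact mul_le_of_le_one_left (norm_nonneg _) (pow_le_one₀ (norm_nonneg _) hz)
    have h5 : ‖z ^ d j * r‖ ^ 2 ≤ ‖r‖ ^ 2 := by gcongr
    calc (1 + c ^ 2) * (‖u‖ ^ 2 + ‖z ^ d j * r‖ ^ 2) ≤ (1 + c ^ 2) * (‖u‖ ^ 2 + ‖r‖ ^ 2) := by
          gcongr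
      _ ≤ (1 + c ^ 2) * (1 + c ^ 2) ^ j := by gcongr
      _ = _ := by ring

/-- exponents detected by the Foguel block -/
def lam (v k j : ℕ) : ℕ := 2 * ell v k j + 1

/-- gaps -/
def dd (v k : ℕ) : ℕ → ℕ
  | 0 => lam v k 0
  | j + 1 => lam v k (j + 1) - lam v k j

/-- degrees -/
def DD (v k : ℕ) : ℕ → ℕ
  | 0 => 0
  | j + 1 => lam v k j

lemma lam_mono (v k : ℕ) {i j : ℕ} (h : i ≤ j) : lam v k i ≤ lam v k j := by
  unfold lam
  rcases h.lt_or_eq with h | h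
  · have := ell_gap v k h
    omega
  · rw [h]

lemma lam_gap (v k : ℕ) {i j : ℕ} (h : i < j) : 2 * lam v k i < lam v k j := by
  unfold lam
  have := ell_gap v k h
  have := ell_pos v k i
  omega

lemma dd_add (v k j : ℕ) : dd v k j + DD v k j = lam v k j := by
  cases j with
  | zero => simp [dd, DD]
  | succ j =>
    simp only [dd, DD]
    have := lam_gap v k (show j < j + 1 by omega)
    omega

lemma DD_lt_dd (v k j : ℕ) : DD v k j < dd v k j := by
  cases j with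
  | zero => simp [dd, DD, lam]
  | succ j =>
    simp only [dd, DD]
    have := lam_gap v k (show j < j + 1 by omega)
    omega

lemma lam_le_DD (v k : ℕ) {i j : ℕ} (h : i < j) : lam v k i ≤ DD v k j := by
  cases j with
  | zero => omega
  | succ j => exact lam_mono v k (by omega)

/-- the starting vector -/
noncomputable def v0 (k : ℕ) : HH := lp.single 2 (k, true, 0) (1 : ℂ)

lemma v0_norm (k : ℕ) : ‖v0 k‖ = 1 := by
  unfold v0
  rw [lp.norm_single (by norm_num)]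
  simp

lemma v0_true (k : ℕ) (t : ℤ) : (v0 k : Idx → ℂ) (k, true, t) = if t = 0 then 1 else 0 := by
  unfold v0
  rw [lp.single_apply, Pi.single_apply]
  by_cases h : t = 0
  · rw [if_pos h, h, if_pos rfl]
  · rw [if_neg h, if_neg]
    intro hc
    exact h (by simpa using hc)

lemma v0_false (k : ℕ) (t : ℤ) : (v0 k : Idx → ℂ) (k, false, t) = 0 := by
  unfold v0
  rw [lp.single_apply, Pi.single_apply, if_neg]
  simp

/-- the functional -/
noncomputable def phi (V : ℕ → ℕ) (hV : ∀ k, 0 < V k) (e : ℝ) (he : 0 < e) (k : ℕ) : ℂ[X] →ₗ[ℂ] ℂ where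
  toFun p := ((aeval (TOp V hV e he) p) (v0 k) : Idx → ℂ) (k, false, 0)
  map_add' p q := by simp
  map_smul' c p := by simp

lemma phi_X_pow (V : ℕ → ℕ) (hV : ∀ k, 0 < V k) (e : ℝ) (he : 0 < e) (k m : ℕ) :
    phi V hV e he k (X ^ m) =
      (e : ℂ) * ∑ j ∈ range (k + 1), if m = lam (V k) k j then 1 else 0 := by
  show ((aeval (TOp V hV e he) (X ^ m : ℂ[X])) (v0 k) : Idx → ℂ) (k, false, 0) = _
  rw [map_pow, aeval_X, TOp_pow_apply]
  simp only [TF]
  rw [v0_false, mul_zero, zero_add]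
  congr 1
  unfold QF
  apply Finset.sum_congr rfl
  intro j _
  have hl := ell_pos (V k) k j
  show (kap (V k) k m j 0 : ℂ) * (v0 k : Idx → ℂ) (k, true, (m : ℤ) - 1 - 2 * ell (V k) k j - 0)
    = _
  rw [v0_true]
  by_cases h : m = lam (V k) k j
  · have h2 : (m : ℤ) - 1 - 2 * ell (V k) k j - 0 = 0 := by
      rw [h]; unfold lam; push_cast; ring
    rw [if_pos h, if_pos h2]
    have h3 : kap (V k) k m j 0 = 1 := by
      unfold kap
      rw [if_pos (by omega), h2, rho_of_nonpos (hV k) k le_rfl, one_mul]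
    rw [h3]
    simp
  · rw [if_neg h, if_neg, mul_zero]
    intro hc
    apply h
    unfold lam
    omega

lemma phi_X_pow_of_ne (V : ℕ → ℕ) (hV : ∀ k, 0 < V k) (e : ℝ) (he : 0 < e) (k m : ℕ)
    (h : ∀ j, j < k + 1 → m ≠ lam (V k) k j) : phi V hV e he k (X ^ m) = 0 := by
  rw [phi_X_pow, Finset.sum_eq_zero, mul_zero]
  intro j hj
  rw [if_neg (h j (Finset.mem_range.1 hj))]

lemma phi_X_pow_lam (V : ℕ → ℕ) (hV : ∀ k, 0 < V k) (e : ℝ) (he : 0 < e) (k j : ℕ) (hj : j < k + 1) :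
    phi V hV e he k (X ^ lam (V k) k j) = e := by
  rw [phi_X_pow, Finset.sum_eq_single j]
  · simp
  · intro i _ hij
    rw [if_neg]
    intro hc
    rcases lt_or_gt_of_ne hij with h | h
    · have := lam_gap (V k) k h
      omega
    · have := lam_gap (V k) k h
      omega
  · intro h
    exact absurd (Finset.mem_range.2 hj) h

lemma phi_step (V : ℕ → ℕ) (hV : ∀ k, 0 < V k) (e : ℝ) (he : 0 < e) (k j : ℕ) (hj : j < k + 1) (R : ℂ[X])
    (hdeg : R.natDegree ≤ DD (V k) k j) (hlead : R.coeff (DD (V k) k j) = 1) :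
    phi V hV e he k (X ^ dd (V k) k j * R) = e := by
  have h1 : X ^ dd (V k) k j * R = ∑ i ∈ range (DD (V k) k j + 1),
      R.coeff i • (X ^ (dd (V k) k j + i) : ℂ[X]) := by
    conv_lhs => rw [R.as_sum_range' (DD (V k) k j + 1) (by omega)]
    rw [Finset.mul_sum]
    apply Finset.sum_congr rfl
    intro i _
    rw [← C_mul_X_pow_eq_monomial, smul_eq_C_mul, pow_add]
    ring
  rw [h1, map_sum, Finset.sum_range_succ, map_smul, hlead, dd_add, phi_X_pow_lam V hV e he k j hj]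
  have h2 : ∑ i ∈ range (DD (V k) k j),
      phi V hV e he k (R.coeff i • (X ^ (dd (V k) k j + i) : ℂ[X])) = 0 := by
    apply Finset.sum_eq_zero
    intro i hi
    have hi' := Finset.mem_range.1 hi
    rw [map_smul, phi_X_pow_of_ne, smul_zero]
    intro l hl hc
    have h3 := dd_add (V k) k j
    have h4 := DD_lt_dd (V k) k j
    rcases lt_trichotomy l j with h | h | h
    · have := lam_le_DD (V k) k h
      omega
    · rw [h] at hc
      omega
    · have := lam_gap (V k) k h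
      omega
  rw [h2]
  simp

lemma RS_main (V : ℕ → ℕ) (hV : ∀ k, 0 < V k) (e : ℝ) (he : 0 < e) (k : ℕ) (c : ℝ) (j : ℕ) (hj : j ≤ k + 1) :
    (RS c (dd (V k) k) j).1.natDegree ≤ DD (V k) k j ∧
    (RS c (dd (V k) k) j).2.natDegree ≤ DD (V k) k j ∧
    (RS c (dd (V k) k) j).2.coeff (DD (V k) k j) = 1 ∧
    phi V hV e he k (RS c (dd (V k) k) j).1 = j * c * e := by
  induction j with
  | zero => simp [RS, DD]
  | succ j ih =>
    obtain ⟨h1, h2, h3, h4⟩ := ih (by omega)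
    set P := (RS c (dd (V k) k) j).1 with hP
    set R := (RS c (dd (V k) k) j).2 with hR
    have hD : DD (V k) k (j + 1) = lam (V k) k j := rfl
    have hdd := dd_add (V k) k j
    have hlt := DD_lt_dd (V k) k j
    have e1 : (RS c (dd (V k) k) (j + 1)).1 = P + C (c : ℂ) * (X ^ dd (V k) k j * R) := rfl
    have e2 : (RS c (dd (V k) k) (j + 1)).2 = X ^ dd (V k) k j * R - C (c : ℂ) * P := rfl
    have hXR : (X ^ dd (V k) k j * R).natDegree ≤ lam (V k) k j := by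
      refine natDegree_mul_le.trans ?_
      rw [natDegree_X_pow]
      omega
    have hP' : P.natDegree ≤ lam (V k) k j := by omega
    rw [e1, e2, hD]
    refine ⟨?_, ?_, ?_, ?_⟩
    · refine natDegree_add_le_of_degree_le hP' ((natDegree_C_mul_le _ _).trans hXR)
    · refine (natDegree_sub_le_of_le hXR ((natDegree_C_mul_le _ _).trans hP')).trans ?_
      simp
    · rw [coeff_sub, coeff_C_mul]
      have h5 : P.coeff (lam (V k) k j) = 0 := coeff_eq_zero_of_natDegree_lt (by omega)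
      rw [h5, ← hdd, add_comm (dd (V k) k j), coeff_X_pow_mul, h3]
      simp
    · rw [map_add, h4, ← smul_eq_C_mul, map_smul, phi_step V hV e he k j (by omega) R h2 h3]
      push_cast
      simp
      ring

/-- the test polynomial -/
noncomputable def PP (V : ℕ → ℕ) (k : ℕ) : ℂ[X] :=
  (RS (1 / Real.sqrt ((k : ℝ) + 1)) (dd (V k) k) (k + 1)).1

lemma const_bound (k : ℕ) : (1 + (1 / Real.sqrt ((k : ℝ) + 1)) ^ 2) ^ (k + 1) ≤ 4 := by
  have hk : (0 : ℝ) < (k : ℝ) + 1 := by positivity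
  rw [div_pow, Real.sq_sqrt hk.le, one_pow]
  have h1 : 1 + 1 / ((k : ℝ) + 1) ≤ Real.exp (1 / ((k : ℝ) + 1)) := by
    have := Real.add_one_le_exp (1 / ((k : ℝ) + 1))
    linarith
  calc (1 + 1 / ((k : ℝ) + 1)) ^ (k + 1) ≤ (Real.exp (1 / ((k : ℝ) + 1))) ^ (k + 1) := by
        gcongr
    _ = Real.exp 1 := by
        rw [← Real.exp_nat_mul]
        congr 1
        push_cast
        field_simp
    _ ≤ 4 := by
        have := Real.exp_one_lt_d9
        linarith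

lemma PP_eval (V : ℕ → ℕ) (k : ℕ) (z : ℂ) (hz : ‖z‖ ≤ 1) : ‖(PP V k).eval z‖ ≤ 2 := by
  have h1 := RS_eval_bound z hz (1 / Real.sqrt ((k : ℝ) + 1)) (dd (V k) k) (k + 1)
  have h2 := const_bound k
  have h3 : ‖(PP V k).eval z‖ ^ 2 ≤ 2 ^ 2 := by
    unfold PP
    have := sq_nonneg ‖((RS (1 / Real.sqrt ((k : ℝ) + 1)) (dd (V k) k) (k + 1)).2).eval z‖
    linarith
  exact (pow_le_pow_iff_left₀ (norm_nonneg _) (by norm_num) (by norm_num)).1 h3

lemma PP_contraction {E : Type*} [NormedAddCommGroup E] [InnerProductSpace ℂ E]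
    (A : E →L[ℂ] E) (hA : ‖A‖ ≤ 1) (V : ℕ → ℕ) (k : ℕ) : ‖aeval A (PP V k)‖ ≤ 2 := by
  apply ContinuousLinearMap.opNorm_le_bound _ (by norm_num)
  intro x
  have h1 := RS_bound A hA (1 / Real.sqrt ((k : ℝ) + 1)) (dd (V k) k) x (k + 1)
  have h2 := const_bound k
  have h3 : ‖(aeval A (PP V k)) x‖ ^ 2 ≤ (2 * ‖x‖) ^ 2 := by
    unfold PP
    have h4 := sq_nonneg
      ‖(aeval A (RS (1 / Real.sqrt ((k : ℝ) + 1)) (dd (V k) k) (k + 1)).2) x‖
    have h5 : (1 + (1 / Real.sqrt ((k : ℝ) + 1)) ^ 2) ^ (k + 1) * ‖x‖ ^ 2 ≤ 4 * ‖x‖ ^ 2 := by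
      gcongr
    rw [mul_pow]
    linarith
  exact (pow_le_pow_iff_left₀ (norm_nonneg _) (by positivity) (by norm_num)).1 h3

lemma PP_lower (V : ℕ → ℕ) (hV : ∀ k, 0 < V k) (e : ℝ) (he : 0 < e) (k : ℕ) :
    e * Real.sqrt ((k : ℝ) + 1) ≤ ‖aeval (TOp V hV e he) (PP V k)‖ := by
  have hk : (0 : ℝ) < (k : ℝ) + 1 := by positivity
  have h1 := (RS_main V hV e he k (1 / Real.sqrt ((k : ℝ) + 1)) (k + 1) le_rfl).2.2.2
  have h2 : phi V hV e he k (PP V k) = ((e * Real.sqrt ((k : ℝ) + 1) : ℝ) : ℂ) := by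
    unfold PP
    rw [h1, ← Complex.ofReal_natCast, ← Complex.ofReal_mul, ← Complex.ofReal_mul]
    congr 1
    push_cast
    have h3 : Real.sqrt ((k : ℝ) + 1) ≠ 0 := (Real.sqrt_pos.2 hk).ne'
    have h4 : ((k : ℝ) + 1) * (1 / Real.sqrt ((k : ℝ) + 1)) = Real.sqrt ((k : ℝ) + 1) := by
      field_simp
      rw [Real.sq_sqrt hk.le]
    rw [h4, mul_comm]
  have h4 : ‖phi V hV e he k (PP V k)‖ ≤ ‖aeval (TOp V hV e he) (PP V k)‖ := by
    calc ‖phi V hV e he k (PP V k)‖ ≤ ‖(aeval (TOp V hV e he) (PP V k)) (v0 k)‖ :=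
          lp.norm_apply_le_norm (by norm_num) ((aeval (TOp V hV e he) (PP V k)) (v0 k)) (k, false, 0)
      _ ≤ ‖aeval (TOp V hV e he) (PP V k)‖ * ‖v0 k‖ := ContinuousLinearMap.le_opNorm _ _
      _ = _ := by rw [v0_norm, mul_one]
  rw [h2, Complex.norm_real, Real.norm_of_nonneg (by positivity)] at h4
  exact h4

end Pool.Agent.Work.MP_ebd05c_an
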