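import Mathlib

set_option autoImplicit false

open scoped BigOperators InnerProductSpace
open Finset Filter Topology

namespace Pool.Agent.Work.MP_ebd05c_an

/-- Cesaro mean of a complex sequence -/
noncomputable def ces (a : ℕ → ℂ) (N : ℕ) : ℂ := (∑ n ∈ range N, a n) / N

lemma ces_norm_le (a : ℕ → ℂ) (C : ℝ) (hC : 0 ≤ C) (h : ∀ n, ‖a n‖ ≤ C) (N : ℕ) :
    ‖ces a N‖ ≤ C := by
  unfold ces
  rcases Nat.eq_zero_or_pos N with h0 | h0
  · subst h0; simpa using hC
  rw [norm_div, Complex.norm_natCast, div_le_iff₀ (by exact_mod_cast h0)]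
  refine (norm_sum_le _ _).trans ?_
  refine (Finset.sum_le_sum (fun n _ => h n)).trans ?_
  rw [Finset.sum_const, Finset.card_range, nsmul_eq_mul, mul_comm]

lemma exists_lim (a : ℕ → ℂ) (C : ℝ) (h : ∀ n, ‖a n‖ ≤ C) :
    ∃ z : ℂ, ‖z‖ ≤ C ∧ Tendsto (ces a) (hyperfilter ℕ : Filter ℕ) (𝓝 z) := by
  have hC : 0 ≤ C := (norm_nonneg _).trans (h 0)
  have hc : IsCompact (Metric.closedBall (0 : ℂ) C) := isCompact_closedBall _ _
  have hle : ((hyperfilter ℕ).map (ces a) : Filter ℂ) ≤ 𝓟 (Metric.closedBall (0 : ℂ) C) := by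
    rw [Filter.le_principal_iff, Ultrafilter.coe_map, Filter.mem_map]
    apply Filter.univ_mem'
    intro N
    simpa [Metric.mem_closedBall] using ces_norm_le a C hC h N
  obtain ⟨z, hz, hz'⟩ := hc.ultrafilter_le_nhds _ hle
  refine ⟨z, by simpa using hz, ?_⟩
  simpa [Tendsto, Ultrafilter.coe_map] using hz'

lemma ces_add (a b : ℕ → ℂ) (N : ℕ) : ces (fun n => a n + b n) N = ces a N + ces b N := by
  unfold ces
  rw [Finset.sum_add_distrib, add_div]

lemma ces_smul (c : ℂ) (a : ℕ → ℂ) (N : ℕ) : ces (fun n => c * a n) N = c * ces a N := by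
  unfold ces
  rw [← Finset.mul_sum, mul_div_assoc]

lemma ces_shift (a : ℕ → ℂ) (C : ℝ) (h : ∀ n, ‖a n‖ ≤ C) :
    Tendsto (fun N => ces (fun n => a (n + 1)) N - ces a N) (hyperfilter ℕ : Filter ℕ) (𝓝 0) := by
  have h1 : Tendsto (fun N : ℕ => (2 * C) / (N : ℝ)) atTop (𝓝 0) :=
    tendsto_const_div_atTop_nhds_zero_nat _
  have h2 : Tendsto (fun N => ces (fun n => a (n + 1)) N - ces a N) atTop (𝓝 0) := by
    rw [tendsto_zero_iff_norm_tendsto_zero]
    refine squeeze_zero (fun _ => norm_nonneg _) (fun N => ?_) h1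
    unfold ces
    rw [← sub_div, norm_div, Complex.norm_natCast]
    apply div_le_div_of_nonneg_right _ (by positivity)
    have e : ∑ n ∈ range N, a (n + 1) - ∑ n ∈ range N, a n = a N - a 0 := by
      rw [← Finset.sum_sub_distrib, Finset.sum_range_sub]
    rw [e]
    refine (norm_sub_le _ _).trans ?_
    linarith [h N, h 0]
  have h3 : (hyperfilter ℕ : Filter ℕ) ≤ atTop := by
    rw [← Nat.cofinite_eq_atTop]
    exact Filter.hyperfilter_le_cofinite
  exact h2.mono_left h3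

variable {H : Type*} [NormedAddCommGroup H] [InnerProductSpace ℂ H] [CompleteSpace H]

lemma inner_pow_bound (T : H →L[ℂ] H) (M : ℝ) (hM : ∀ n : ℕ, ‖T ^ n‖ ≤ M) (x y : H) (n : ℕ) :
    ‖(inner ℂ ((T ^ n) x) ((T ^ n) y) : ℂ)‖ ≤ M * M * ‖x‖ * ‖y‖ := by
  have hM0 : 0 ≤ M := (norm_nonneg _).trans (hM 0)
  have h1 : ‖(T ^ n) x‖ ≤ M * ‖x‖ :=
    ((T ^ n).le_opNorm x).trans (mul_le_mul_of_nonneg_right (hM n) (norm_nonneg _))
  have h2 : ‖(T ^ n) y‖ ≤ M * ‖y‖ :=
    ((T ^ n).le_opNorm y).trans (mul_le_mul_of_nonneg_right (hM n) (norm_nonneg _))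
  calc ‖(inner ℂ ((T ^ n) x) ((T ^ n) y) : ℂ)‖ ≤ ‖(T ^ n) x‖ * ‖(T ^ n) y‖ := norm_inner_le_norm _ _
    _ ≤ (M * ‖x‖) * (M * ‖y‖) := by gcongr
    _ = M * M * ‖x‖ * ‖y‖ := by ring

/-- the invariant form -/
lemma exists_form (T : H →L[ℂ] H) (M : ℝ) (hM : ∀ n : ℕ, ‖T ^ n‖ ≤ M) :
    ∃ A : H →L[ℂ] H, ∀ x y : H, Tendsto (ces (fun n => inner ℂ ((T ^ n) x) ((T ^ n) y)))
      (hyperfilter ℕ : Filter ℕ) (𝓝 (inner ℂ (A x) y)) := by
  have hex := fun x y : H => exists_lim (fun n => inner ℂ ((T ^ n) x) ((T ^ n) y))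
    (M * M * ‖x‖ * ‖y‖) (inner_pow_bound T M hM x y)
  choose B hB1 hB2 using hex
  have hu : ∀ x y : H, ∀ z : ℂ, Tendsto (ces (fun n => inner ℂ ((T ^ n) x) ((T ^ n) y)))
      (hyperfilter ℕ : Filter ℕ) (𝓝 z) → B x y = z := fun x y z hz =>
    tendsto_nhds_unique (hB2 x y) hz
  let f : H →ₗ⋆[ℂ] H →ₗ[ℂ] ℂ := LinearMap.mk₂'ₛₗ (starRingEnd ℂ) (RingHom.id ℂ) B
    (by
      intro x x' y
      apply hu
      have := (hB2 x y).add (hB2 x' y)
      refine this.congr (fun N => ?_)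
      rw [← ces_add]
      congr 1
      funext n
      rw [map_add, inner_add_left])
    (by
      intro c x y
      apply hu
      have := (hB2 x y).const_mul (starRingEnd ℂ c)
      refine this.congr (fun N => ?_)
      rw [← ces_smul]
      congr 1
      funext n
      rw [map_smul, inner_smul_left])
    (by
      intro x y y'
      apply hu
      have := (hB2 x y).add (hB2 x y')
      refine this.congr (fun N => ?_)
      rw [← ces_add]
      congr 1
      funext n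
      rw [map_add, inner_add_right])
    (by
      intro c x y
      apply hu
      have := (hB2 x y).const_mul c
      refine this.congr (fun N => ?_)
      rw [← ces_smul]
      congr 1
      funext n
      rw [map_smul, inner_smul_right])
  let F : H →L⋆[ℂ] H →L[ℂ] ℂ := LinearMap.mkContinuous₂ f (M * M) (fun x y => hB1 x y)
  refine ⟨InnerProductSpace.continuousLinearMapOfBilin F, fun x y => ?_⟩
  rw [InnerProductSpace.continuousLinearMapOfBilin_apply]
  exact hB2 x y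

/-- Sz.-Nagy's theorem for a surjective operator with two sided bounded orbits -/
theorem nagy (T : H →L[ℂ] H) (M δ : ℝ) (hM : ∀ n : ℕ, ‖T ^ n‖ ≤ M) (hδ : 0 < δ)
    (hlow : ∀ n : ℕ, ∀ x : H, δ * ‖x‖ ≤ ‖(T ^ n) x‖) :
    ∃ S : H ≃L[ℂ] H, ∀ x, ‖S (T x)‖ = ‖S x‖ := by
  obtain ⟨A, hA⟩ := exists_form T M hM
  have hsym : ∀ x y, inner ℂ (A x) y = inner ℂ x (A y) := by
    intro x y
    have h1 := hA x y
    have h2 := (Complex.continuous_conj.tendsto _).comp (hA y x)
    have h3 : (fun N => ces (fun n => inner ℂ ((T ^ n) x) ((T ^ n) y)) N) =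
        (starRingEnd ℂ) ∘ (ces (fun n => inner ℂ ((T ^ n) y) ((T ^ n) x))) := by
      funext N
      simp only [Function.comp, ces, map_div₀, map_sum, inner_conj_symm, Complex.conj_natCast]
    have h1' : Tendsto ((starRingEnd ℂ) ∘ (ces (fun n => inner ℂ ((T ^ n) y) ((T ^ n) x))))
        (hyperfilter ℕ : Filter ℕ) (𝓝 (inner ℂ (A x) y)) := by rw [← h3]; exact h1
    have h4 := tendsto_nhds_unique h1' h2
    rw [h4, inner_conj_symm]
  have hinv : ∀ x y, inner ℂ (A (T x)) (T y) = inner ℂ (A x) y := by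
    intro x y
    have h1 := hA (T x) (T y)
    have h2 := hA x y
    have h3 := ces_shift (fun n => inner ℂ ((T ^ n) x) ((T ^ n) y)) _ (inner_pow_bound T M hM x y)
    have h4 := h3.add h2
    rw [zero_add] at h4
    refine tendsto_nhds_unique h1 (h4.congr (fun N => ?_))
    rw [sub_add_cancel]
    rfl
  have hpos : ∀ x, δ ^ 2 * ‖x‖ ^ 2 ≤ (inner ℂ (A x) x : ℂ).re := by
    intro x
    have h1 := (Complex.continuous_re.tendsto _).comp (hA x x)
    refine ge_of_tendsto h1 ?_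
    have h2 : ∀ᶠ N in (hyperfilter ℕ : Filter ℕ), 0 < N := by
      have h3 : (hyperfilter ℕ : Filter ℕ) ≤ atTop := by
        rw [← Nat.cofinite_eq_atTop]
        exact Filter.hyperfilter_le_cofinite
      exact h3 (eventually_gt_atTop 0)
    filter_upwards [h2] with N hN
    simp only [Function.comp, ces]
    have h4 : ((∑ n ∈ range N, (inner ℂ ((T ^ n) x) ((T ^ n) x) : ℂ)) / (N : ℂ)).re =
        (∑ n ∈ range N, ‖(T ^ n) x‖ ^ 2) / N := by
      have h5 : (∑ n ∈ range N, (inner ℂ ((T ^ n) x) ((T ^ n) x) : ℂ)) =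
          ((∑ n ∈ range N, ‖(T ^ n) x‖ ^ 2 : ℝ) : ℂ) := by
        push_cast
        apply Finset.sum_congr rfl
        intro n _
        rw [inner_self_eq_norm_sq_to_K]
        norm_cast
      rw [h5, ← Complex.ofReal_natCast, ← Complex.ofReal_div, Complex.ofReal_re]
    rw [h4, le_div_iff₀ (by exact_mod_cast hN)]
    have h6 : ∑ n ∈ range N, δ ^ 2 * ‖x‖ ^ 2 ≤ ∑ n ∈ range N, ‖(T ^ n) x‖ ^ 2 := by
      apply Finset.sum_le_sum
      intro n _
      rw [← mul_pow]
      have := hlow n x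
      have h7 : 0 ≤ δ * ‖x‖ := by positivity
      gcongr
    rw [Finset.sum_const, Finset.card_range, nsmul_eq_mul] at h6
    linarith
  -- positivity of A
  have hApos : (0 : H →L[ℂ] H) ≤ A - (δ ^ 2 : ℝ) • (1 : H →L[ℂ] H) := by
    rw [ContinuousLinearMap.nonneg_iff_isPositive, ContinuousLinearMap.isPositive_def]
    constructor
    · intro x y
      simp only [ContinuousLinearMap.coe_coe, sub_apply,
        smul_apply, one_apply_eq_self, inner_sub_left,
        inner_sub_right]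
      rw [hsym]
      congr 1
      rw [← Complex.coe_smul, ← Complex.coe_smul, inner_smul_left, inner_smul_right]
      simp
    · intro x
      rw [ContinuousLinearMap.reApplyInnerSelf_apply]
      simp only [sub_apply,
        smul_apply, one_apply_eq_self, inner_sub_left]
      have h1 := hpos x
      rw [← Complex.coe_smul, inner_smul_left, inner_self_eq_norm_sq_to_K]
      simp only [map_sub, Complex.conj_ofReal]
      have h2 : RCLike.re (((δ ^ 2 : ℝ) : ℂ) * ((‖x‖ : ℂ) ^ 2)) = δ ^ 2 * ‖x‖ ^ 2 := by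
        rw [← Complex.ofReal_pow, ← Complex.ofReal_mul]
        rfl
      simp only [RCLike.re_to_complex] at h2 ⊢
      have h3 : (((δ ^ 2 : ℝ) : ℂ) * ((‖x‖ : ℂ) ^ 2)).re = δ ^ 2 * ‖x‖ ^ 2 := h2
      simp only [Complex.coe_algebraMap]
      linarith
  have hA0 : (0 : H →L[ℂ] H) ≤ A := by
    have h1 : (0 : H →L[ℂ] H) ≤ (δ ^ 2 : ℝ) • (1 : H →L[ℂ] H) := smul_nonneg (by positivity) zero_le_one
    have h2 := add_nonneg hApos h1
    simpa using h2
  have hAu : IsUnit A := by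
    have h1 : (δ ^ 2 : ℝ) • (1 : H →L[ℂ] H) ≤ A := by simpa using hApos
    refine CStarAlgebra.isUnit_of_le _ h1 ⟨smul_nonneg (by positivity) zero_le_one, ?_⟩
    have hne : (δ ^ 2 : ℝ) ≠ 0 := by positivity
    exact isUnit_one.smul (Units.mk0 (δ ^ 2 : ℝ) hne)
  set S := CFC.sqrt A with hS
  have hSS : S * S = A := CFC.sqrt_mul_sqrt_self A hA0
  have hSu : IsUnit S := (CFC.isUnit_sqrt_iff A hA0).2 hAu
  have hSsa : IsSelfAdjoint S := (CFC.sqrt_nonneg A).isSelfAdjoint
  have hnorm : ∀ x, ‖S x‖ ^ 2 = (inner ℂ (A x) x : ℂ).re := by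
    intro x
    have h1 : inner ℂ (A x) x = (inner ℂ (S x) (S x) : ℂ) := by
      have h2 : ContinuousLinearMap.adjoint S = S := hSsa
      have h3 : A x = S (S x) := by
        have h4 : (S * S) x = A x := by rw [hSS]
        rw [← h4]
        rfl
      have h5 := ContinuousLinearMap.adjoint_inner_left S x (S x)
      rw [h2] at h5
      rw [h3, h5]
    rw [h1, inner_self_eq_norm_sq_to_K]
    norm_cast
  refine ⟨ContinuousLinearEquiv.unitsEquiv ℂ H hSu.unit, fun x => ?_⟩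
  have h1 : ‖S (T x)‖ ^ 2 = ‖S x‖ ^ 2 := by
    rw [hnorm, hnorm, hinv]
  have h2 : ‖S (T x)‖ = ‖S x‖ := by
    exact (sq_eq_sq₀ (norm_nonneg _) (norm_nonneg _)).1 h1
  exact h2

end Pool.Agent.Work.MP_ebd05c_an
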