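import Pool.Agent.Work.MP_ebd05c_an.Weights

set_option autoImplicit false

open scoped BigOperators ENNReal
open Finset

namespace Pool.Agent.Work.MP_ebd05c_an

/-- index set: block, component, position -/
abbrev Idx : Type := ℕ × Bool × ℤ

/-- off-diagonal part of the n-th power, in block k -/
noncomputable def QF (v k n : ℕ) (x : ℤ → ℂ) (s : ℤ) : ℂ :=
  ∑ j ∈ range (k + 1), (kap v k n j s : ℂ) * x ((n : ℤ) - 1 - 2 * ell v k j - s)

/-- the n-th power as a map on functions -/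
noncomputable def TF (V : ℕ → ℕ) (e : ℝ) (n : ℕ) (x : Idx → ℂ) : Idx → ℂ := fun i =>
  match i with
  | (k, false, s) => ((rho (V k) k s / rho (V k) k (s - n) : ℝ) : ℂ) * x (k, false, s - n)
      + (e : ℂ) * QF (V k) k n (fun t => x (k, true, t)) s
  | (k, true, t) => ((rho (V k) k (t + n) / rho (V k) k t : ℝ) : ℂ) * x (k, true, t + n)

/-- squared norm of a sequence -/
noncomputable def sq (x : ℤ → ℂ) : ℝ≥0∞ := ∑' s, ‖x s‖ₑ ^ 2

lemma enorm_sq_eq (z : ℂ) : ‖z‖ₑ ^ 2 = ENNReal.ofReal (‖z‖ ^ 2) := by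
  rw [← ofReal_norm, ENNReal.ofReal_pow (norm_nonneg _)]

lemma enorm_mul_sq_le {a : ℝ} {z : ℂ} {c : ℝ} (ha : 0 ≤ a) (hc : a ≤ c) :
    ‖(a : ℂ) * z‖ₑ ^ 2 ≤ ENNReal.ofReal (c ^ 2) * ‖z‖ₑ ^ 2 := by
  rw [enorm_sq_eq, enorm_sq_eq, ← ENNReal.ofReal_mul (by positivity)]
  apply ENNReal.ofReal_le_ofReal
  rw [norm_mul, mul_pow, Complex.norm_real, Real.norm_of_nonneg ha]
  gcongr

lemma enorm_add_sq_le {e : ℝ} (he : 0 < e) (z w : ℂ) :
    ‖z + w‖ₑ ^ 2 ≤ ENNReal.ofReal (1 + e) * ‖z‖ₑ ^ 2 + ENNReal.ofReal (1 + 1 / e) * ‖w‖ₑ ^ 2 := by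
  rw [enorm_sq_eq, enorm_sq_eq, enorm_sq_eq]
  rw [← ENNReal.ofReal_mul (by positivity), ← ENNReal.ofReal_mul (by positivity),
    ← ENNReal.ofReal_add (by positivity) (by positivity)]
  apply ENNReal.ofReal_le_ofReal
  have h1 := norm_add_le z w
  have h0 := norm_nonneg (z + w)
  have h2 : ‖z + w‖ ^ 2 ≤ (‖z‖ + ‖w‖) ^ 2 := by gcongr
  have h3 : 2 * ‖z‖ * ‖w‖ ≤ e * ‖z‖ ^ 2 + 1 / e * ‖w‖ ^ 2 := by
    have h4 : 0 ≤ (Real.sqrt e * ‖z‖ - 1 / Real.sqrt e * ‖w‖) ^ 2 := sq_nonneg _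
    have h5 : Real.sqrt e * (1 / Real.sqrt e) = 1 := by
      have := (Real.sqrt_pos.2 he).ne'
      field_simp
    have h6 : Real.sqrt e ^ 2 = e := Real.sq_sqrt he.le
    have h7 : (1 / Real.sqrt e) ^ 2 = 1 / e := by rw [div_pow, h6, one_pow]
    have h8 : (Real.sqrt e * ‖z‖ - 1 / Real.sqrt e * ‖w‖) ^ 2 =
        Real.sqrt e ^ 2 * ‖z‖ ^ 2 - 2 * (Real.sqrt e * (1 / Real.sqrt e)) * ‖z‖ * ‖w‖ +
        (1 / Real.sqrt e) ^ 2 * ‖w‖ ^ 2 := by ring
    rw [h8, h5, h6, h7] at h4
    linarith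
  nlinarith

lemma sq_add_le {e : ℝ} (he : 0 < e) (x y : ℤ → ℂ) : sq (fun s => x s + y s) ≤
    ENNReal.ofReal (1 + e) * sq x + ENNReal.ofReal (1 + 1 / e) * sq y := by
  unfold sq
  rw [← ENNReal.tsum_mul_left, ← ENNReal.tsum_mul_left, ← ENNReal.tsum_add]
  exact ENNReal.tsum_le_tsum (fun s => enorm_add_sq_le he _ _)

lemma sq_sub_le {e : ℝ} (he : 0 < e) (x y : ℤ → ℂ) : sq (fun s => x s - y s) ≤
    ENNReal.ofReal (1 + e) * sq x + ENNReal.ofReal (1 + 1 / e) * sq y := by
  have h := sq_add_le he x (fun s => - y s)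
  have h1 : sq (fun s => - y s) = sq y := by
    unfold sq
    simp
  rw [h1] at h
  simpa [sub_eq_add_neg] using h

lemma sq_mul_le {a : ℤ → ℝ} {c : ℝ} (x : ℤ → ℂ) (ha : ∀ s, 0 ≤ a s) (hc : ∀ s, a s ≤ c) :
    sq (fun s => (a s : ℂ) * x s) ≤ ENNReal.ofReal (c ^ 2) * sq x := by
  unfold sq
  rw [← ENNReal.tsum_mul_left]
  exact ENNReal.tsum_le_tsum (fun s => enorm_mul_sq_le (ha s) (hc s))

lemma sq_shift (x : ℤ → ℂ) (n : ℤ) : sq (fun s => x (s + n)) = sq x := by
  unfold sq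
  exact (Equiv.addRight n).tsum_eq (fun s => ‖x s‖ₑ ^ 2)

/-- the Schur test for the off-diagonal part -/
lemma sq_QF_le {v : ℕ} (hv : 0 < v) (k n : ℕ) (x : ℤ → ℂ) : sq (QF v k n x) ≤ 4 * sq x := by
  have hpt : ∀ s, ‖QF v k n x s‖ₑ ^ 2 ≤ 2 * ∑ j ∈ range (k + 1),
      ENNReal.ofReal (kap v k n j s) * ‖x ((n : ℤ) - 1 - 2 * ell v k j - s)‖ₑ ^ 2 := by
    intro s
    have hreal : ‖QF v k n x s‖ ^ 2 ≤ 2 * ∑ j ∈ range (k + 1),
        kap v k n j s * ‖x ((n : ℤ) - 1 - 2 * ell v k j - s)‖ ^ 2 := by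
      have h1 : ‖QF v k n x s‖ ≤ ∑ j ∈ range (k + 1),
          kap v k n j s * ‖x ((n : ℤ) - 1 - 2 * ell v k j - s)‖ := by
        unfold QF
        refine (norm_sum_le _ _).trans (le_of_eq ?_)
        apply Finset.sum_congr rfl
        intro j _
        rw [norm_mul, Complex.norm_real, Real.norm_of_nonneg (kap_nonneg hv k n j s)]
      have h2 : (∑ j ∈ range (k + 1),
          kap v k n j s * ‖x ((n : ℤ) - 1 - 2 * ell v k j - s)‖) ^ 2 ≤
          (∑ j ∈ range (k + 1), kap v k n j s) *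
          ∑ j ∈ range (k + 1), kap v k n j s * ‖x ((n : ℤ) - 1 - 2 * ell v k j - s)‖ ^ 2 := by
        have h3 := Finset.sum_mul_sq_le_sq_mul_sq (range (k + 1))
          (fun j => Real.sqrt (kap v k n j s))
          (fun j => Real.sqrt (kap v k n j s) * ‖x ((n : ℤ) - 1 - 2 * ell v k j - s)‖)
        have e1 : ∀ j, Real.sqrt (kap v k n j s) *
            (Real.sqrt (kap v k n j s) * ‖x ((n : ℤ) - 1 - 2 * ell v k j - s)‖) =
            kap v k n j s * ‖x ((n : ℤ) - 1 - 2 * ell v k j - s)‖ := by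
          intro j
          rw [← mul_assoc, Real.mul_self_sqrt (kap_nonneg hv k n j s)]
        have e2 : ∀ j, Real.sqrt (kap v k n j s) ^ 2 = kap v k n j s := fun j =>
          Real.sq_sqrt (kap_nonneg hv k n j s)
        simp only [e1, mul_pow, e2] at h3
        exact h3
      have h4 := kap_sum hv k n s
      have h5 : 0 ≤ ∑ j ∈ range (k + 1),
          kap v k n j s * ‖x ((n : ℤ) - 1 - 2 * ell v k j - s)‖ ^ 2 :=
        Finset.sum_nonneg (fun j _ => mul_nonneg (kap_nonneg hv k n j s) (by positivity))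
      calc ‖QF v k n x s‖ ^ 2 ≤ (∑ j ∈ range (k + 1),
          kap v k n j s * ‖x ((n : ℤ) - 1 - 2 * ell v k j - s)‖) ^ 2 := by gcongr
        _ ≤ _ := h2
        _ ≤ _ := mul_le_mul_of_nonneg_right h4 h5
    rw [enorm_sq_eq]
    refine (ENNReal.ofReal_le_ofReal hreal).trans (le_of_eq ?_)
    rw [ENNReal.ofReal_mul (by norm_num), ENNReal.ofReal_sum_of_nonneg
      (fun j _ => mul_nonneg (kap_nonneg hv k n j s) (by positivity))]
    congr 1
    · simp
    · apply Finset.sum_congr rfl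
      intro j _
      rw [ENNReal.ofReal_mul (kap_nonneg hv k n j s), enorm_sq_eq]
  unfold sq
  calc ∑' s, ‖QF v k n x s‖ₑ ^ 2 ≤ ∑' s, 2 * ∑ j ∈ range (k + 1),
      ENNReal.ofReal (kap v k n j s) * ‖x ((n : ℤ) - 1 - 2 * ell v k j - s)‖ₑ ^ 2 :=
        ENNReal.tsum_le_tsum hpt
    _ = 2 * ∑ j ∈ range (k + 1), ∑' s,
      ENNReal.ofReal (kap v k n j s) * ‖x ((n : ℤ) - 1 - 2 * ell v k j - s)‖ₑ ^ 2 := by
        rw [ENNReal.tsum_mul_left, Summable.tsum_finsetSum (fun _ _ => ENNReal.summable)]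
    _ = 2 * ∑ j ∈ range (k + 1), ∑' t,
      ENNReal.ofReal (kap v k n j t) * ‖x t‖ₑ ^ 2 := by
        congr 1
        apply Finset.sum_congr rfl
        intro j _
        rw [← (Equiv.subLeft ((n : ℤ) - 1 - 2 * ell v k j)).tsum_eq
          (fun t => ENNReal.ofReal (kap v k n j t) * ‖x t‖ₑ ^ 2)]
        apply tsum_congr
        intro s
        simp only [Equiv.subLeft_apply]
        rw [kap_symm]
    _ = 2 * ∑' t, ∑ j ∈ range (k + 1), ENNReal.ofReal (kap v k n j t) * ‖x t‖ₑ ^ 2 := by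
        rw [Summable.tsum_finsetSum (fun _ _ => ENNReal.summable)]
    _ ≤ 2 * ∑' t, 2 * ‖x t‖ₑ ^ 2 := by
        gcongr with t
        rw [← Finset.sum_mul, ← ENNReal.ofReal_sum_of_nonneg
          (fun j _ => kap_nonneg hv k n j t)]
        gcongr
        have h2 : (2 : ℝ≥0∞) = ENNReal.ofReal 2 := by simp
        rw [h2]
        exact ENNReal.ofReal_le_ofReal (kap_sum hv k n t)
    _ = 4 * ∑' t, ‖x t‖ₑ ^ 2 := by
        rw [ENNReal.tsum_mul_left, ← mul_assoc]
        norm_num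

lemma sq_eQF_le {v : ℕ} (hv : 0 < v) {e : ℝ} (he : 0 < e) (k n : ℕ) (x : ℤ → ℂ) :
    ENNReal.ofReal (1 + 1 / e) * sq (fun s => (e : ℂ) * QF v k n x s) ≤
      ENNReal.ofReal (4 * e + 4 * e ^ 2) * sq x := by
  have h1 : sq (fun s => (e : ℂ) * QF v k n x s) ≤ ENNReal.ofReal (e ^ 2) * sq (QF v k n x) :=
    sq_mul_le (QF v k n x) (fun _ => he.le) (fun _ => le_rfl)
  have h2 := sq_QF_le hv k n x
  have h4 : (4 : ℝ≥0∞) = ENNReal.ofReal 4 := by norm_num
  calc ENNReal.ofReal (1 + 1 / e) * sq (fun s => (e : ℂ) * QF v k n x s)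
      ≤ ENNReal.ofReal (1 + 1 / e) * (ENNReal.ofReal (e ^ 2) * (4 * sq x)) := by
        gcongr
        exact h1.trans (by gcongr)
    _ = ENNReal.ofReal (4 * e + 4 * e ^ 2) * sq x := by
        rw [h4, ← mul_assoc, ← mul_assoc, ← ENNReal.ofReal_mul (by positivity),
          ← ENNReal.ofReal_mul (by positivity)]
        congr 2
        field_simp
        ring

/-- recursion: the formula for n+1 from the formulas for 1 and n -/
lemma TF_succ {V : ℕ → ℕ} (hV : ∀ k, 0 < V k) (e : ℝ) (n : ℕ) (x : Idx → ℂ) :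
    TF V e (n + 1) x = TF V e 1 (TF V e n x) := by
  funext i
  obtain ⟨k, b, s⟩ := i
  have hp : ∀ t, (rho (V k) k t : ℂ) ≠ 0 := fun t => by
    exact_mod_cast (rho_pos (hV k) k t).ne'
  cases b with
  | true =>
    simp only [TF]
    have h1 : s + ((n + 1 : ℕ) : ℤ) = s + ((1 : ℕ) : ℤ) + n := by push_cast; ring
    rw [h1, ← mul_assoc]
    congr 1
    push_cast
    have := hp (s + 1)
    have := hp s
    field_simp
  | false =>
    simp only [TF]
    have h1 : s - ((n + 1 : ℕ) : ℤ) = s - ((1 : ℕ) : ℤ) - n := by push_cast; ring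
    rw [mul_add, ← mul_assoc, h1, add_assoc]
    congr 1
    · congr 1
      push_cast
      have := hp (s - 1)
      have := hp (s - 1 - n)
      field_simp
    · unfold QF
      rw [Finset.mul_sum, Finset.mul_sum, Finset.mul_sum, Finset.mul_sum,
        ← Finset.sum_add_distrib]
      apply Finset.sum_congr rfl
      intro j _
      have hl := ell_pos (V k) k j
      have hne := hp (s - 1)
      by_cases hc : s = -(ell (V k) k j : ℤ)
      · -- the new term
        have ha : kap (V k) k (n + 1) j s = rho (V k) k (s + n) := by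
          unfold kap
          rw [if_pos (by push_cast; omega)]
          have h2 : rho (V k) k s = 1 := rho_of_nonpos (hV k) k (by omega)
          have h3 : (((n + 1 : ℕ) : ℤ) - 1 - 2 * ell (V k) k j - s) = s + n := by
            push_cast; omega
          rw [h2, h3, one_mul]
        have hb : kap (V k) k n j (s - ((1 : ℕ) : ℤ)) = 0 := by
          unfold kap
          rw [if_neg (by push_cast; omega)]
        have hd : kap (V k) k 1 j s = 1 := by
          unfold kap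
          rw [if_pos (by push_cast; omega)]
          have h2 : rho (V k) k s = 1 := rho_of_nonpos (hV k) k (by omega)
          have h3 : (((1 : ℕ) : ℤ) - 1 - 2 * ell (V k) k j - s) = s := by
            push_cast; omega
          rw [h3, h2, one_mul]
        have h4 : (((1 : ℕ) : ℤ) - 1 - 2 * ell (V k) k j - s) = s := by
          push_cast; omega
        have h5 : (((n + 1 : ℕ) : ℤ) - 1 - 2 * ell (V k) k j - s) = s + n := by
          push_cast; omega
        have h6 : rho (V k) k s = 1 := rho_of_nonpos (hV k) k (by omega)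
        rw [ha, hb, hd, h4, h5]
        have h7 : ((rho (V k) k s : ℝ) : ℂ) = 1 := by rw [h6]; simp
        push_cast
        simp only [h7]
        ring
      · have hd : kap (V k) k 1 j s = 0 := by
          unfold kap
          rw [if_neg (by push_cast; omega)]
        rw [hd]
        have h5 : (((n + 1 : ℕ) : ℤ) - 1 - 2 * ell (V k) k j - s) =
            (n : ℤ) - 1 - 2 * ell (V k) k j - (s - ((1 : ℕ) : ℤ)) := by
          push_cast; ring
        rw [h5]
        by_cases hc2 : -(ell (V k) k j : ℤ) ≤ s ∧ s ≤ (n : ℤ) - ell (V k) k j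
        · have ha : kap (V k) k (n + 1) j s = rho (V k) k s *
              rho (V k) k ((n : ℤ) - 1 - 2 * ell (V k) k j - (s - ((1 : ℕ) : ℤ))) := by
            unfold kap
            rw [if_pos (by push_cast; omega), h5]
          have hb : kap (V k) k n j (s - ((1 : ℕ) : ℤ)) = rho (V k) k (s - ((1 : ℕ) : ℤ)) *
              rho (V k) k ((n : ℤ) - 1 - 2 * ell (V k) k j - (s - ((1 : ℕ) : ℤ))) := by
            unfold kap
            rw [if_pos (by push_cast; omega)]
          rw [ha, hb]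
          push_cast
          field_simp
          ring
        · have ha : kap (V k) k (n + 1) j s = 0 := by
            unfold kap
            rw [if_neg (by push_cast; omega)]
          have hb : kap (V k) k n j (s - ((1 : ℕ) : ℤ)) = 0 := by
            unfold kap
            rw [if_neg (by push_cast; omega)]
          rw [ha, hb]
          push_cast
          ring

end Pool.Agent.Work.MP_ebd05c_an
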