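import Mathlib

set_option autoImplicit false

open scoped BigOperators ENNReal
open Finset

namespace Pool.Agent.Work.MP_ebd05c_an

/-- clamp of `s` to `[0, w]` -/
def cl (w : ℕ) (s : ℤ) : ℤ := max 0 (min s w)

/-- the weight: `1` for `s ≤ 0`, `1/(k+1)` for `s ≥ k v` -/
noncomputable def rho (v k : ℕ) (s : ℤ) : ℝ := (v : ℝ) / (v + (cl (k * v) s : ℝ))

/-- the sparse set -/
def ell (v k j : ℕ) : ℕ := (k * v + 1) * 3 ^ j

lemma cl_nonneg (w : ℕ) (s : ℤ) : 0 ≤ cl w s := le_max_left _ _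

lemma cl_le (w : ℕ) (s : ℤ) : cl w s ≤ w := by
  unfold cl
  exact max_le (by positivity) (min_le_right _ _)

lemma cl_mono (w : ℕ) {s t : ℤ} (h : s ≤ t) : cl w s ≤ cl w t := by
  unfold cl
  exact max_le_max le_rfl (min_le_min h le_rfl)

lemma cl_add (w : ℕ) (s : ℤ) (n : ℕ) : cl w (s + n) ≤ cl w s + n := by
  unfold cl
  omega

lemma cl_of_nonpos (w : ℕ) {s : ℤ} (h : s ≤ 0) : cl w s = 0 := by
  unfold cl
  omega

lemma cl_of_ge (w : ℕ) {s : ℤ} (h : (w : ℤ) ≤ s) : cl w s = w := by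
  unfold cl
  omega

section
variable {v : ℕ} (hv : 0 < v) (k : ℕ)
include hv

lemma den_pos (s : ℤ) : (0 : ℝ) < v + (cl (k * v) s : ℝ) := by
  have h1 : (0 : ℝ) < v := by exact_mod_cast hv
  have h2 : (0 : ℝ) ≤ (cl (k * v) s : ℝ) := by exact_mod_cast cl_nonneg _ _
  linarith

lemma rho_pos (s : ℤ) : 0 < rho v k s := by
  unfold rho
  have h1 : (0 : ℝ) < v := by exact_mod_cast hv
  exact div_pos h1 (den_pos hv k s)

lemma rho_le_one (s : ℤ) : rho v k s ≤ 1 := by
  unfold rho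
  rw [div_le_one (den_pos hv k s)]
  have h2 : (0 : ℝ) ≤ (cl (k * v) s : ℝ) := by exact_mod_cast cl_nonneg _ _
  linarith

lemma rho_ge (s : ℤ) : 1 / ((k : ℝ) + 1) ≤ rho v k s := by
  unfold rho
  have h1 : (0 : ℝ) < v := by exact_mod_cast hv
  have h2 : (cl (k * v) s : ℝ) ≤ (k : ℝ) * v := by
    have := cl_le (k * v) s
    have h3 : (cl (k * v) s : ℝ) ≤ ((k * v : ℕ) : ℝ) := by exact_mod_cast this
    simpa using h3
  rw [div_le_div_iff₀ (by positivity) (den_pos hv k s)]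
  nlinarith

lemma rho_anti {s t : ℤ} (h : s ≤ t) : rho v k t ≤ rho v k s := by
  unfold rho
  have h1 : (0 : ℝ) < v := by exact_mod_cast hv
  have h2 : (cl (k * v) s : ℝ) ≤ (cl (k * v) t : ℝ) := by exact_mod_cast cl_mono _ h
  exact div_le_div_of_nonneg_left h1.le (den_pos hv k s) (by linarith)

lemma rho_of_nonpos {s : ℤ} (h : s ≤ 0) : rho v k s = 1 := by
  unfold rho
  rw [cl_of_nonpos _ h]
  have h1 : (v : ℝ) ≠ 0 := by exact_mod_cast hv.ne'
  simp [h1]

lemma rho_of_ge {s : ℤ} (h : ((k * v : ℕ) : ℤ) ≤ s) : rho v k s = 1 / ((k : ℝ) + 1) := by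
  unfold rho
  rw [cl_of_ge _ h]
  have h1 : (v : ℝ) ≠ 0 := by exact_mod_cast hv.ne'
  have h2 : (k : ℝ) + 1 ≠ 0 := by positivity
  have h3 : (v : ℝ) + (((k * v : ℕ) : ℤ) : ℝ) = v * ((k : ℝ) + 1) := by push_cast; ring
  rw [h3]
  field_simp

/-- growth of the inverse weights -/
lemma rho_ratio (s : ℤ) (n : ℕ) : rho v k s ≤ (1 + (n : ℝ) / v) * rho v k (s + n) := by
  unfold rho
  have h1 : (0 : ℝ) < v := by exact_mod_cast hv
  have hd := den_pos hv k s
  have hd' := den_pos hv k (s + n)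
  have h2 : (cl (k * v) (s + n) : ℝ) ≤ (cl (k * v) s : ℝ) + n := by
    exact_mod_cast cl_add (k * v) s n
  have h0 : (0 : ℝ) ≤ (cl (k * v) s : ℝ) := by exact_mod_cast cl_nonneg _ _
  rw [mul_div_assoc', div_le_div_iff₀ hd hd']
  have h3 : (1 + (n : ℝ) / v) * v = v + n := by field_simp
  rw [h3]
  have hn : (0 : ℝ) ≤ n := by positivity
  nlinarith [mul_nonneg hn h0, mul_nonneg hn h1.le]

lemma rho_ratio' (s : ℤ) (n : ℕ) : rho v k s ≤ ((k : ℝ) + 1) * rho v k (s + n) := by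
  have h1 := rho_ge hv k (s + n)
  have h2 := rho_le_one hv k s
  have h3 : (0 : ℝ) < (k : ℝ) + 1 := by positivity
  rw [div_le_iff₀ h3] at h1
  linarith

end

lemma ell_pos (v k j : ℕ) : 0 < ell v k j := by unfold ell; positivity

lemma ell_ge (v k j : ℕ) : k * v + 1 ≤ ell v k j := by
  unfold ell
  exact Nat.le_mul_of_pos_right _ (by positivity)

lemma ell_gap (v k : ℕ) {i j : ℕ} (h : i < j) : 3 * ell v k i ≤ ell v k j := by
  unfold ell
  have : 3 ^ (i + 1) ≤ 3 ^ j := Nat.pow_le_pow_right (by norm_num) h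
  calc 3 * ((k * v + 1) * 3 ^ i) = (k * v + 1) * 3 ^ (i + 1) := by ring
    _ ≤ (k * v + 1) * 3 ^ j := Nat.mul_le_mul_left _ this

/-- the matrix coefficient on the `j`-th antidiagonal -/
noncomputable def kap (v k n j : ℕ) (s : ℤ) : ℝ :=
  if -(ell v k j : ℤ) ≤ s ∧ s ≤ (n : ℤ) - 1 - ell v k j then
    rho v k s * rho v k ((n : ℤ) - 1 - 2 * ell v k j - s) else 0

lemma kap_nonneg {v : ℕ} (hv : 0 < v) (k n j : ℕ) (s : ℤ) : 0 ≤ kap v k n j s := by
  unfold kap
  split_ifs
  · exact mul_nonneg (rho_pos hv k _).le (rho_pos hv k _).le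
  · exact le_rfl

lemma kap_symm (v k n j : ℕ) (s : ℤ) :
    kap v k n j ((n : ℤ) - 1 - 2 * ell v k j - s) = kap v k n j s := by
  unfold kap
  have h1 : (n : ℤ) - 1 - 2 * ell v k j - ((n : ℤ) - 1 - 2 * ell v k j - s) = s := by ring
  rw [h1]
  by_cases h : -(ell v k j : ℤ) ≤ s ∧ s ≤ (n : ℤ) - 1 - ell v k j
  · rw [if_pos h, if_pos (by omega), mul_comm]
  · rw [if_neg h, if_neg (by omega)]

/-- row sums are at most two -/
lemma kap_sum {v : ℕ} (hv : 0 < v) (k n : ℕ) (s : ℤ) :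
    ∑ j ∈ range (k + 1), kap v k n j s ≤ 2 := by
  classical
  set J := (range (k + 1)).filter
    (fun j => -(ell v k j : ℤ) ≤ s ∧ s ≤ (n : ℤ) - 1 - ell v k j) with hJ
  have hone : ∀ j, kap v k n j s ≤ 1 := by
    intro j
    unfold kap
    split_ifs
    · exact mul_le_one₀ (rho_le_one hv k _) (rho_pos hv k _).le (rho_le_one hv k _)
    · norm_num
  have hk1 : (0 : ℝ) < (k : ℝ) + 1 := by positivity
  rcases J.eq_empty_or_nonempty with he | hne
  · have : ∑ j ∈ range (k + 1), kap v k n j s = 0 := by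
      apply Finset.sum_eq_zero
      intro j hj
      unfold kap
      rw [if_neg]
      intro hc
      have : j ∈ J := by rw [hJ, Finset.mem_filter]; exact ⟨hj, hc⟩
      rw [he] at this
      simp at this
    rw [this]; norm_num
  · set M := J.max' hne with hM
    have hMJ : M ∈ J := J.max'_mem hne
    have hMr : M ∈ range (k + 1) := (Finset.mem_filter.1 hMJ).1
    have hMc := (Finset.mem_filter.1 hMJ).2
    rw [← Finset.add_sum_erase _ _ hMr]
    have hrest : ∑ j ∈ (range (k + 1)).erase M, kap v k n j s ≤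
        ∑ j ∈ (range (k + 1)).erase M, 1 / ((k : ℝ) + 1) := by
      apply Finset.sum_le_sum
      intro j hj
      by_cases hc : -(ell v k j : ℤ) ≤ s ∧ s ≤ (n : ℤ) - 1 - ell v k j
      · have hjJ : j ∈ J := by
          rw [hJ, Finset.mem_filter]; exact ⟨Finset.mem_of_mem_erase hj, hc⟩
        have hle : j ≤ M := J.le_max' j hjJ
        have hlt : j < M := lt_of_le_of_ne hle (Finset.ne_of_mem_erase hj)
        have hg := ell_gap v k hlt
        have hge := ell_ge v k j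
        have hbig : ((k * v : ℕ) : ℤ) ≤ (n : ℤ) - 1 - 2 * ell v k j - s := by
          have h1 : (3 * ell v k j : ℤ) ≤ ell v k M := by exact_mod_cast hg
          have h2 : ((k * v : ℕ) : ℤ) + 1 ≤ ell v k j := by exact_mod_cast hge
          have h3 := hMc.2
          linarith
        unfold kap
        rw [if_pos hc, rho_of_ge hv k hbig]
        have := rho_le_one hv k s
        have h4 : (0 : ℝ) ≤ 1 / ((k : ℝ) + 1) := by positivity
        nlinarith
      · unfold kap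
        rw [if_neg hc]
        positivity
    have hcard : ∑ j ∈ (range (k + 1)).erase M, 1 / ((k : ℝ) + 1) ≤ 1 := by
      rw [Finset.sum_const, Finset.card_erase_of_mem hMr, Finset.card_range]
      simp only [Nat.add_sub_cancel, nsmul_eq_mul]
      rw [mul_one_div, div_le_one hk1]
      linarith
    have := hone M
    linarith

end Pool.Agent.Work.MP_ebd05c_an
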